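import Pool.Agent.H76.MO.StmtC

/-! BLK: the type of a replaced block. -/

set_option autoImplicit false

open Set Pool.Agent.TK Pool.Agent.H71.VK

namespace Pool.Agent.MO

theorem pf_BLK {C : Type} (hRPB : T_RPB C) (hPIB : T_PIB C) : T_BLK C := by
  intro ι c0 b M B z R hRA T i hi
  obtain ⟨r1, r2, -, r4, r5, r6, r7, r8⟩ := hRPB ι c0 b M B z R hRA T
  have hzT : ∀ s ∈ z i, ∀ j ∈ T, s ∉ B j := fun s hs j _ => hRA.avo i j s hs
  have hPI0 : PI M (R i) ((z i).zip (z i)) := bf_PI (hRA.fb i).2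
  obtain ⟨-, p2, p3⟩ := (hPIB c0 M (R i) _ hRA.val (hRA.vaR i)).1 hPI0
  have hzz : ∀ s ∈ z i, (s, s) ∈ (z i).zip (z i) := fun s hs => by
    rw [← dg_eq_zip]
    exact mem_dg.2 ⟨rfl, hs⟩
  refine ⟨id, rfl, Set.bijOn_id _, ?_⟩
  intro x hx
  have hq : ∀ q ∈ (z i).zip (z i) ++ x.map (fun s => (s, id s)), q.2 = q.1 ∧ (q.1 ∈ z i ∨ q.1 ∈ B i) := by
    intro q hq
    rcases List.mem_append.1 hq with h | h
    · rw [← dg_eq_zip] at h
      have h1 := mem_dg.1 h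
      exact ⟨h1.1.symm, Or.inl h1.2⟩
    · obtain ⟨s, hs, rfl⟩ := List.mem_map.1 h
      exact ⟨rfl, Or.inr (hx s hs)⟩
  have htp : ∀ y ∈ B i, ∀ s ∈ z i, ee (bn (rp M B z R T)) y s = ee (bn (R i)) y s := by
    intro y hy
    have h := r8 i hi y hy
    unfold tp at h
    exact List.map_inj_left.1 h
  refine (hPIB c0 (rp M B z R T) (R i) _ r1 (hRA.vaR i)).2 ⟨?_, ?_, ?_⟩
  · intro q h1 q' h2
    rw [(hq q h1).1, (hq q' h2).1]
  · intro q h1
    obtain ⟨e, h2⟩ := hq q h1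
    rw [e]
    rcases h2 with h2 | h2
    · rw [r4 q.1 (hzT q.1 h2)]
      exact p2 _ (hzz _ h2)
    · exact r5 i hi q.1 h2
  · intro q h1 q' h1'
    obtain ⟨e, h2⟩ := hq q h1
    obtain ⟨e', h2'⟩ := hq q' h1'
    rw [e, e']
    rcases h2 with h2 | h2
    · rcases h2' with h2' | h2'
      · rw [r7 q.1 q'.1 (fun j hj h3 => absurd h3 (hzT q.1 h2 j hj)), r2 q.1 (hzT q.1 h2),
          r2 q'.1 (hzT q'.1 h2')]
        exact p3 _ (hzz _ h2) _ (hzz _ h2')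
      · have h5 := htp q'.1 h2' q.1 h2
        unfold ee at h5
        exact (Prod.mk.inj h5).2
    · rcases h2' with h2' | h2'
      · have h5 := htp q.1 h2 q'.1 h2'
        unfold ee at h5
        exact (Prod.mk.inj h5).1
      · exact r6 i hi q.1 h2 q'.1 h2'

end Pool.Agent.MO
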