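import Pool.Agent.H76.MO.StmtC
import Pool.Agent.H54.TK.INF

/-! EXN: a big triple has equivalent triples of new type on the same set. -/

set_option autoImplicit false

open Set Pool.Agent.TK Pool.Agent.H71.VK

namespace Pool.Agent.MO

private lemma exn_om {C : Type} : RLe C om om2 := RLe.sup (fun n => (Rk.lim^[n]) Rk.zero) 1

theorem pf_EXN {C : Type} : T_EXN C := by
  classical
  intro c0 b M z P hM hb hz hs T hT
  have hom : RLe (C × W) om b :=
    ((exn_om.trans (RLe.lim _)).trans (RLe.lim _)).trans hb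
  obtain ⟨N, z', Q, hN, hF, hO⟩ : ∃ (N : St (C × W)) (z' : List ℕ) (Q : Set ℕ), BV c0 N ∧
      FB b M z P N z' Q ∧ ¬ InO (insert (M, z, P) T) N z' Q := by
    by_contra hc
    push Not at hc
    exact hs ⟨insert (M, z, P) T, hT.insert _, fun N z' Q h1 h2 => hc N z' Q h1 h2⟩
  have hnF : ¬ FI M z P N z' Q := fun h => hO ⟨(M, z, P), mem_insert _ _, h.symm⟩
  have hF' : FB om M z P N z' Q := hF.mono hom
  obtain ⟨hI, hfin⟩ := pf_INF M N z z' P Q hF'
  have hPi : P.Infinite := fun h => hnF (hfin h)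
  have hQi : Q.Infinite := hI.1 hPi
  have hPI : PI M N (z.zip z') := bf_PI hF.2
  have hlen : z.length = z'.length := hF.1
  have hpart : ∀ x ∈ z, ∃ w, (x, w) ∈ z.zip z' :=
    fun x hx => INFaux.partner z z' hlen.symm x hx
  choose! k hk using hpart
  have hzip : ∀ x w, (x, w) ∈ z.zip z' → w = k x := by
    intro x w hxw
    exact (hPI.1 (x, w) hxw (x, k x) (hk x (List.of_mem_zip hxw).1)).1 rfl
  have hkQ : ∀ x ∈ z, k x ∉ Q := by
    intro x hx hq
    obtain ⟨l, hl, hlP, hbf⟩ := lim_ext' (r := Rk.zero) hF'.2 [k x] (by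
      intro y hy
      rw [List.mem_singleton] at hy
      rw [hy]
      exact hq)
    obtain ⟨a, rfl⟩ := List.length_eq_one_iff.1 hl
    have h1 := (bf_PI hbf).1 (a, k x) (by simp) (x, k x)
      (List.mem_append_right _ (hk x hx))
    have h2 : a = x := h1.2 rfl
    exact hz x hx (h2 ▸ hlP a List.mem_cons_self)
  have : Infinite P := hPi.to_subtype
  have : Infinite Q := hQi.to_subtype
  let e : P ≃ Q :=
    (Nat.Subtype.orderIsoOfNat P).symm.toEquiv.trans (Nat.Subtype.orderIsoOfNat Q).toEquiv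
  let g : ℕ → ℕ := fun x => if hx : x ∈ P then (e ⟨x, hx⟩ : ℕ) else k x
  have hgP : ∀ x (hx : x ∈ P), g x = e ⟨x, hx⟩ := fun x hx => dif_pos hx
  have hgz : ∀ x ∈ z, g x = k x := fun x hx => dif_neg (hz x hx)
  have hgQ : ∀ x ∈ P, g x ∈ Q := fun x hx => by
    rw [hgP x hx]
    exact (e ⟨x, hx⟩).2
  have hinj : ∀ x, (x ∈ P ∨ x ∈ z) → ∀ y, (y ∈ P ∨ y ∈ z) → g x = g y → x = y := by
    rintro x (hx | hx) y (hy | hy) hxy
    · rw [hgP x hx, hgP y hy] at hxy
      have := e.injective (Subtype.ext hxy)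
      exact congrArg Subtype.val this
    · exfalso
      apply hkQ y hy
      rw [← hgz y hy, ← hxy]
      exact hgQ x hx
    · exfalso
      apply hkQ x hx
      rw [← hgz x hx, hxy]
      exact hgQ y hy
    · rw [hgz x hx, hgz y hy] at hxy
      exact (hPI.1 (x, k x) (hk x hx) (y, k y) (hk y hy)).2 hxy
  have hbij : BijOn g P Q := by
    refine ⟨hgQ, fun x hx y hy hxy => hinj x (Or.inl hx) y (Or.inl hy) hxy, ?_⟩
    intro y hy
    refine ⟨(e.symm ⟨y, hy⟩ : ℕ), (e.symm ⟨y, hy⟩).2, ?_⟩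
    rw [hgP _ (e.symm ⟨y, hy⟩).2]
    simp
  let R : St (C × W) := (fun u v => decide (u ≠ v), fun l => N.2 (l.map g))
  have hR : BV c0 R := by
    refine ⟨fun u v => rfl, hN.2.1, fun x => hN.2.2.1 (g x), fun x y => hN.2.2.2.1 (g x) (g y), ?_⟩
    intro l hl
    exact hN.2.2.2.2 (l.map g) (by rw [List.length_map]; exact hl)
  have hFI : FI R z P N z' Q := by
    refine ⟨g, hlen, hbij, ?_⟩
    intro x hx
    have key : ∀ q ∈ z.zip z' ++ x.map (fun z => (z, g z)),
        (q.1 ∈ P ∨ q.1 ∈ z) ∧ q.2 = g q.1 := by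
      intro q hq
      rcases List.mem_append.1 hq with h | h
      · obtain ⟨q1, q2⟩ := q
        have h1 := (List.of_mem_zip h).1
        exact ⟨Or.inr h1, by rw [hzip q1 q2 h]; exact (hgz q1 h1).symm⟩
      · obtain ⟨w, hw, rfl⟩ := List.mem_map.1 h
        exact ⟨Or.inl (hx w hw), rfl⟩
    have h1 : ∀ q ∈ z.zip z' ++ x.map (fun z => (z, g z)),
        ∀ q' ∈ z.zip z' ++ x.map (fun z => (z, g z)), (q.1 = q'.1 ↔ q.2 = q'.2) := by
      intro q hq q' hq'
      obtain ⟨a1, a2⟩ := key q hq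
      obtain ⟨b1, b2⟩ := key q' hq'
      rw [a2, b2]
      exact ⟨fun h => by rw [h], fun h => hinj _ a1 _ b1 h⟩
    refine ⟨h1, ?_, ?_⟩
    · intro q hq q' hq'
      rw [hN.1]
      change decide (q.1 ≠ q'.1) = decide (q.2 ≠ q'.2)
      rw [decide_eq_decide, not_iff_not]
      exact h1 q hq q' hq'
    · intro r hr
      change N.2 ((r.map Prod.fst).map g) = N.2 (r.map Prod.snd)
      rw [List.map_map]
      apply congrArg
      apply List.map_congr_left
      intro q hq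
      exact ((key q (hr q hq)).2).symm
  refine ⟨R, hR, hF.trans (hFI.symm.fb b), ?_⟩
  rintro ⟨t, ht, hft⟩
  exact hO ⟨t, mem_insert_of_mem _ ht, hFI.symm.trans hft⟩

end Pool.Agent.MO
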