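import Pool.Agent.H76.MO.StmtC

/-! `INV`: presentations which avoid the blocks define the same sets. -/

set_option autoImplicit false

open Set Pool.Agent.TK Pool.Agent.H71.VK

namespace Pool.Agent.MO

theorem pf_INV {C : Type} (hMEM : T_MEM C) (hCOM : T_COM C) (hPSE : T_PSE C)
    (hRP0 : T_RP0 C) : T_INV C := by
  intro ι c0 b M B z R hA T π hav
  have h0 : rp M B z R ∅ = M := (hRP0 ι M B z R R).1
  obtain ⟨e1, e2, -, e4, e5⟩ := hPSE ι c0 b M B z R hA T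
  have hcom : ∀ (r : Rk) (p : List (ℕ × ℕ)), Ps M B z R T r p →
      bf (rp M B z R T) M univ univ r p := by
    intro r p hp
    have h1 := hCOM ι c0 b M B z R hA T ∅ (empty_subset _) r p (by rwa [diff_empty])
    rwa [h0] at h1
  have hmem : ∀ p : List (ℕ × ℕ), Ps M B z R T om2 p → (∀ a ∈ dl π, (a, a) ∈ p) →
      (Vd (bn (rp M B z R T)) π ↔ Vd (bn M) π) ∧
      ∀ q ∈ p, (q.1 ∈ st (bn (rp M B z R T)) π ↔ q.2 ∈ st (bn M) π) := by
    intro p hp ha
    have h1 := hMEM (rp M B z R T) M π id p (hcom om2 p hp) ha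
    rwa [mp_id] at h1
  have hdg : ∀ a ∈ dl π, (a, a) ∈ dg (dl π) := fun a ha => List.mem_map.2 ⟨a, ha, rfl⟩
  have hp0 : Ps M B z R T b (dg (dl π)) := e1 (dl π) hav
  have hlim : Ps M B z R T (Rk.lim om2) (dg (dl π)) :=
    e2 (Rk.lim om2) b _ ((RLe.lim (Rk.lim om2)).trans hA.base) hp0
  have hp1 : Ps M B z R T om2 (dg (dl π)) := e2 om2 (Rk.lim om2) _ (RLe.lim om2) hlim
  have part2 : ∀ x, (∀ i ∈ T, x ∉ B i) →
      (x ∈ st (bn (rp M B z R T)) π ↔ x ∈ st (bn M) π) := by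
    intro x hx
    exact (hmem ((x, x) :: dg (dl π)) (e4 om2 (dg (dl π)) x hp1 hx)
      (fun a ha => List.mem_cons_of_mem _ (hdg a ha))).2 (x, x) List.mem_cons_self
  refine ⟨(hmem _ hp1 hdg).1, part2, ?_⟩
  intro hns
  ext x
  by_cases hx : ∃ i ∈ T, x ∈ B i
  · obtain ⟨i, hi, hb⟩ := hx
    obtain ⟨a', ha'⟩ := (e5 (fun m => Rk.sucN m om2) (dg (dl π)) hlim 0).1 x
    have h1 : Ps M B z R T om2 ((x, a') :: dg (dl π)) := ha'
    have h2 : a' ∈ B i := (h1.2.1 (x, a') List.mem_cons_self i hi).1 hb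
    have h3 := (hmem ((x, a') :: dg (dl π)) h1
      (fun a ha => List.mem_cons_of_mem _ (hdg a ha))).2 (x, a') List.mem_cons_self
    rcases hns i hi with h | h
    · exact ⟨fun _ => h hb, fun _ => h3.2 (h h2)⟩
    · exact ⟨fun h4 => absurd (h3.1 h4) (Set.disjoint_left.1 h h2),
        fun h4 => absurd h4 (Set.disjoint_left.1 h hb)⟩
  · push Not at hx
    exact part2 x hx

end Pool.Agent.MO
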