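import Pool.Agent.H76.MO.StmtC

/-! Row IOT of the board cw_modules: isomorphisms respect the types of pieces. -/

set_option autoImplicit false

open Set Pool.Agent.TK Pool.Agent.H71.VK

namespace Pool.Agent.MO

variable {C : Type}

private theorem pi_of_isoH {k : Equiv.Perm ℕ} {M N : St C} (H : IsoH k M N) {p : List (ℕ × ℕ)}
    (hp : ∀ z ∈ p, z.2 = k z.1) : PI M N p := by
  refine ⟨fun z hz w hw => ?_, fun z hz w hw => ?_, fun q hq => ?_⟩
  · rw [hp z hz, hp w hw]
    exact k.injective.eq_iff.symm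
  · rw [hp z hz, hp w hw]
    exact H.1 _ _
  · rw [H.2, List.map_map]
    exact congrArg N.2 (List.map_congr_left fun z hz => (hp z (hq z hz)).symm)

private theorem zip_map_mem (k : ℕ → ℕ) (a : List ℕ) : ∀ z ∈ a.zip (a.map k), z.2 = k z.1 := by
  induction a with
  | nil => simp
  | cons x a ih =>
    intro z hz
    rw [List.map_cons, List.zip_cons_cons, List.mem_cons] at hz
    rcases hz with rfl | hz
    · rfl
    · exact ih z hz

private theorem fi_of_isoH {k : Equiv.Perm ℕ} {M N : St C} (H : IsoH k M N) (a : List ℕ)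
    (D : Set ℕ) : FI M a D N (a.map k) (k '' D) := by
  refine ⟨k, by simp, ⟨fun x hx => mem_image_of_mem k hx, k.injective.injOn, fun y hy => hy⟩,
    fun x _ => pi_of_isoH H ?_⟩
  intro z hz
  rcases List.mem_append.1 hz with h | h
  · exact zip_map_mem k a z h
  · obtain ⟨w, -, rfl⟩ := List.mem_map.1 h
    rfl

theorem pf_IOT {C : Type} : T_IOT C := by
  intro M N h π H
  have h1 : ∀ x y, bn N (h x) (h y) = bn M x y := by
    intro x y
    have h2 := H.2 [x, y]
    unfold bn
    rw [h2]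
    rfl
  have h3 : FI M (zl π) (st (bn M) π) N (zl (mp h π)) (st (bn N) (mp h π)) := by
    rw [st_iso h h1 π, zl_mp]
    exact fi_of_isoH H _ _
  refine ⟨h1, h3, fun O => ⟨?_, ?_⟩⟩
  · rintro ⟨t, ht, hF⟩
    exact ⟨t, ht, h3.symm.trans hF⟩
  · rintro ⟨t, ht, hF⟩
    exact ⟨t, ht, h3.trans hF⟩

end Pool.Agent.MO
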