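import Pool.Agent.H76.MO.StmtC

/-! Row MEM: membership in pieces is preserved in positions of rank `om2`. -/

set_option autoImplicit false

open Set Pool.Agent.TK Pool.Agent.H71.VK

namespace Pool.Agent.MO

namespace MEM

variable {C : Type}

lemma ee_PI {M M' : St (C × W)} {p : List (ℕ × ℕ)} (hp : PI M M' p) {x x' y y' : ℕ}
    (hx : (x, x') ∈ p) (hy : (y, y') ∈ p) : ee (bn M) x y = ee (bn M') x' y' := by
  have h1 := hp.2.2 [(x, x'), (y, y')] (by
    intro z hz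
    simp only [List.mem_cons, List.not_mem_nil, or_false] at hz
    rcases hz with rfl | rfl
    exacts [hx, hy])
  have h2 := hp.2.2 [(y, y'), (x, x')] (by
    intro z hz
    simp only [List.mem_cons, List.not_mem_nil, or_false] at hz
    rcases hz with rfl | rfl
    exacts [hy, hx])
  simp only [List.map_cons, List.map_nil] at h1 h2
  unfold ee bn
  rw [h1, h2]

lemma tp_PI {M M' : St (C × W)} {p : List (ℕ × ℕ)} (hp : PI M M' p) {L : List ℕ} {h : ℕ → ℕ}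
    (hL : ∀ a ∈ L, (a, h a) ∈ p) {x x' : ℕ} (hx : (x, x') ∈ p) :
    tp (bn M) L x = tp (bn M') (L.map h) x' := by
  unfold tp
  rw [List.map_map]
  exact List.map_congr_left fun s hs => ee_PI hp hx (hL s hs)

lemma mem_PI {M M' : St (C × W)} {p : List (ℕ × ℕ)} (hp : PI M M' p) {L : List ℕ} {h : ℕ → ℕ}
    (hL : ∀ a ∈ L, (a, h a) ∈ p) {x x' : ℕ} (hx : (x, x') ∈ p) : x ∈ L ↔ x' ∈ L.map h := by
  constructor
  · intro h1
    have h2 : h x = x' := (hp.1 (x, h x) (hL x h1) (x, x') hx).1 rfl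
    rw [← h2]
    exact List.mem_map_of_mem h1
  · intro h1
    obtain ⟨a, ha, hax⟩ := List.mem_map.1 h1
    have h2 : a = x := (hp.1 (a, h a) (hL a ha) (x, x') hx).2 hax
    rw [← h2]
    exact ha

lemma bn_PI {M M' : St (C × W)} {p : List (ℕ × ℕ)} (hp : PI M M' p) {x x' y y' : ℕ}
    (hx : (x, x') ∈ p) (hy : (y, y') ∈ p) : bn M x y = bn M' x' y' :=
  congrArg Prod.fst (ee_PI hp hx hy)

lemma hl_PI {M M' : St (C × W)} {p : List (ℕ × ℕ)} (hp : PI M M' p) (F : Tab)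
    {x x' y y' v v' : ℕ} (hx : (x, x') ∈ p) (hy : (y, y') ∈ p) (hv : (v, v') ∈ p) :
    v ∈ hl (bn M) F x y ↔ v' ∈ hl (bn M') F x' y' := by
  unfold hl
  simp only [Set.mem_ofPred_eq]
  rw [bn_PI hp hx hv, bn_PI hp hy hv]

lemma ct_bf {M M' : St (C × W)} {p : List (ℕ × ℕ)}
    (hp : bf M M' univ univ (Rk.sucN 5 Rk.zero) p) (h : CT (bn M)) : CT (bn M') := by
  intro F x y v v' u h1 h2 h3
  obtain ⟨-, -, f1⟩ := hp 0
  obtain ⟨x0, -, g1⟩ := f1 x (mem_univ _)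
  obtain ⟨-, -, f2⟩ := g1 0
  obtain ⟨y0, -, g2⟩ := f2 y (mem_univ _)
  obtain ⟨-, -, f3⟩ := g2 0
  obtain ⟨v0, -, g3⟩ := f3 v (mem_univ _)
  obtain ⟨-, -, f4⟩ := g3 0
  obtain ⟨v0', -, g4⟩ := f4 v' (mem_univ _)
  obtain ⟨-, -, f5⟩ := g4 0
  obtain ⟨u0, -, g5⟩ := f5 u (mem_univ _)
  have hPI := bf_PI g5
  have mx : (x0, x) ∈ (u0, u) :: (v0', v') :: (v0, v) :: (y0, y) :: (x0, x) :: p := by simp
  have my : (y0, y) ∈ (u0, u) :: (v0', v') :: (v0, v) :: (y0, y) :: (x0, x) :: p := by simp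
  have mv : (v0, v) ∈ (u0, u) :: (v0', v') :: (v0, v) :: (y0, y) :: (x0, x) :: p := by simp
  have mv' : (v0', v') ∈ (u0, u) :: (v0', v') :: (v0, v) :: (y0, y) :: (x0, x) :: p := by simp
  have mu : (u0, u) ∈ (u0, u) :: (v0', v') :: (v0, v) :: (y0, y) :: (x0, x) :: p := by simp
  rw [← ee_PI hPI mv mu, ← ee_PI hPI mv' mu]
  rw [← ee_PI hPI mv mx, ← ee_PI hPI mv' mx] at h1
  rw [← ee_PI hPI mv my, ← ee_PI hPI mv' my] at h2
  rw [← hl_PI hPI F mx my mv, ← hl_PI hPI F mx my mu] at h3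
  exact h F x0 y0 v0 v0' u0 h1 h2 h3

lemma ct_bf' {M M' : St (C × W)} {p : List (ℕ × ℕ)}
    (hp : bf M M' univ univ (Rk.sucN 5 Rk.zero) p) (h : CT (bn M')) : CT (bn M) := by
  intro F x y v v' u h1 h2 h3
  obtain ⟨-, f1, -⟩ := hp 0
  obtain ⟨x0, -, g1⟩ := f1 x (mem_univ _)
  obtain ⟨-, f2, -⟩ := g1 0
  obtain ⟨y0, -, g2⟩ := f2 y (mem_univ _)
  obtain ⟨-, f3, -⟩ := g2 0
  obtain ⟨v0, -, g3⟩ := f3 v (mem_univ _)
  obtain ⟨-, f4, -⟩ := g3 0
  obtain ⟨v0', -, g4⟩ := f4 v' (mem_univ _)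
  obtain ⟨-, f5, -⟩ := g4 0
  obtain ⟨u0, -, g5⟩ := f5 u (mem_univ _)
  have hPI := bf_PI g5
  have mx : (x, x0) ∈ (u, u0) :: (v', v0') :: (v, v0) :: (y, y0) :: (x, x0) :: p := by simp
  have my : (y, y0) ∈ (u, u0) :: (v', v0') :: (v, v0) :: (y, y0) :: (x, x0) :: p := by simp
  have mv : (v, v0) ∈ (u, u0) :: (v', v0') :: (v, v0) :: (y, y0) :: (x, x0) :: p := by simp
  have mv' : (v', v0') ∈ (u, u0) :: (v', v0') :: (v, v0) :: (y, y0) :: (x, x0) :: p := by simp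
  have mu : (u, u0) ∈ (u, u0) :: (v', v0') :: (v, v0) :: (y, y0) :: (x, x0) :: p := by simp
  rw [ee_PI hPI mv mu, ee_PI hPI mv' mu]
  rw [ee_PI hPI mv mx, ee_PI hPI mv' mx] at h1
  rw [ee_PI hPI mv my, ee_PI hPI mv' my] at h2
  rw [hl_PI hPI F mx my mv, hl_PI hPI F mx my mu] at h3
  exact h F x0 y0 v0 v0' u0 h1 h2 h3

lemma main (M M' : St (C × W)) (hCT : CT (bn M) ↔ CT (bn M')) (h : ℕ → ℕ) :
    ∀ (π : Pr) (p : List (ℕ × ℕ)), PI M M' p → (∀ a ∈ dl π, (a, h a) ∈ p) →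
    (Vd (bn M) π ↔ Vd (bn M') (mp h π)) ∧
    ∀ q ∈ p, (q.1 ∈ st (bn M) π ↔ q.2 ∈ st (bn M') (mp h π)) := by
  intro π
  induction π with
  | nil =>
    intro p _ _
    exact ⟨hCT, fun q _ => Iff.intro (fun _ => mem_univ _) (fun _ => mem_univ _)⟩
  | cons s π ih =>
    obtain ⟨S, F, v, β⟩ := s
    intro p hPI hd
    have hd1 : ∀ a ∈ dl π, (a, h a) ∈ p := fun a ha => hd a (dl_sub_cons _ _ ha)
    have hS : ∀ a ∈ S, (a, h a) ∈ p := fun a ha => hd a (by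
      rw [dl_cons]
      exact List.mem_cons_of_mem _ (List.mem_append_left _ ha))
    have hv : (v, h v) ∈ p := hd v (by
      rw [dl_cons]
      exact List.mem_cons_self)
    have hL : ∀ a ∈ v :: (S ++ zl π), (a, h a) ∈ p := by
      intro a ha
      rcases List.mem_cons.1 ha with rfl | ha
      · exact hv
      · rcases List.mem_append.1 ha with h1 | h1
        · exact hS a h1
        · exact hd1 a (zl_sub_dl π h1)
    obtain ⟨i1, i2⟩ := ih p hPI hd1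
    constructor
    · rw [mp_cons, vd_cons, vd_cons]
      simp only
      rw [i1]
      have e1 : (∀ a ∈ S, a ∈ st (bn M) π) ↔ ∀ a ∈ S.map h, a ∈ st (bn M') (mp h π) := by
        constructor
        · intro h3 a ha
          obtain ⟨b, hb, rfl⟩ := List.mem_map.1 ha
          exact (i2 (b, h b) (hS b hb)).1 (h3 b hb)
        · intro h3 a ha
          exact (i2 (a, h a) (hS a ha)).2 (h3 _ (List.mem_map_of_mem ha))
      have e2 : v ∈ st (bn M) π ↔ h v ∈ st (bn M') (mp h π) := i2 (v, h v) hv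
      have e3 : v ∈ S ↔ h v ∈ S.map h := mem_PI hPI hS hv
      rw [e1, e2, e3]
    · intro q hq
      rw [mp_cons, mem_st_cons, mem_st_cons]
      simp only
      have hhd : (S.headD v, h (S.headD v)) ∈ p := hL _ (by
        rcases List.mem_cons.1 (headD_mem S v) with h1 | h1
        · rw [h1]
          exact List.mem_cons_self
        · exact List.mem_cons_of_mem _ (List.mem_append_left _ h1))
      have e1 : q.1 ∈ v :: (S ++ zl π) ↔ q.2 ∈ h v :: (S.map h ++ zl (mp h π)) := by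
        rw [zl_mp, ← List.map_append, ← List.map_cons]
        exact mem_PI (x := q.1) (x' := q.2) hPI hL hq
      rw [i2 q hq, e1, headD_map, hl_PI (v := q.1) (v' := q.2) hPI F hv hhd hq]

end MEM

theorem pf_MEM {C : Type} : T_MEM C := by
  intro M M' π h p hp hd
  have h1 : bf M M' univ univ (Rk.lim Rk.zero) p := (hp 1).1
  have h2 : bf M M' univ univ (Rk.sucN 5 Rk.zero) p :=
    RLe.lim' (C := C × W) 5 Rk.zero _ _ _ _ _ h1
  exact MEM.main M M' ⟨MEM.ct_bf h2, MEM.ct_bf' h2⟩ h π p (bf_PI h1) hd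

end Pool.Agent.MO
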