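import Pool.Agent.H71.MO.Main

/-! Coding of linear orders with monotone relations, and the final reduction. -/

set_option autoImplicit false

open Set Pool.Agent.TK Pool.Agent.H71.VK

namespace Pool.Agent.MO

/-- order, relations, colours -/
abbrev Ls (C : Type) : Type := (ℕ → ℕ → Bool) × (ℕ → ℕ → ℕ → Bool) × (ℕ → C)

/-- comparison in the order or in the reversed order -/
def up (r : ℕ → ℕ → Bool) (ε : Bool) (x y : ℕ) : Prop :=
  x = y ∨ (if ε = true then r x y = true else r y x = true)

/-- the relation `s` is monotone of the given type -/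
def Mn (r : ℕ → ℕ → Bool) (s : ℕ → ℕ → Bool) (ε δ : Bool) : Prop :=
  ∀ x x' y y', up r ε x' x → s x y = true → up r δ y y' → s x' y' = true

/-- strict linear orders -/
def Lin (r : ℕ → ℕ → Bool) : Prop :=
  (∀ x, r x x = false) ∧ (∀ x y, x ≠ y → r x y = true ∨ r y x = true) ∧
    ∀ x y z, r x y = true → r y z = true → r x z = true

/-- linear orders with monotone relations -/
def Mon {C : Type} (x : Ls C) : Prop := Lin x.1 ∧ ∀ k, ∃ ε δ, Mn x.1 (x.2.1 k) ε δ

/-- isomorphisms -/
def IsoE {C : Type} (x y : Ls C) (g : Equiv.Perm ℕ) : Prop :=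
  (∀ a b, y.1 (g a) (g b) = x.1 a b) ∧ (∀ k a b, y.2.1 k (g a) (g b) = x.2.1 k a b) ∧
    ∀ a, y.2.2 (g a) = x.2.2 a

open Classical in
/-- the values of the terms -/
noncomputable def vl {C : Type} (x : Ls C) : Tm → ℕ → ℕ → Bool
  | .lt true => fun a b => x.1 a b
  | .lt false => fun a b => x.1 b a
  | .rel k ε δ => fun a b => x.2.1 k a b && decide (Mn x.1 (x.2.1 k) ε δ)
  | .comp s t => fun a b => decide (s.ty.2 = t.ty.1 ∧ ∃ z, vl x s a z = true ∧ vl x t z b = true)
  | .inv s => fun a b => !vl x s b a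
  | .neg s => fun a b => !vl x s a b

section

variable {C : Type}

/-- coding of structures -/
noncomputable def enc (c0 : C) (x : Ls C) : St (C × W) :=
  (fun u v => decide (u ≠ v), fun l => match l with
    | [a] => (x.2.2 a, w0)
    | [a, b] => (c0, fun t => vl x t a b)
    | _ => (c0, w0))

lemma bv_enc (c0 : C) (x : Ls C) : BV c0 (enc c0 x) := by
  refine ⟨fun _ _ => rfl, rfl, fun _ => rfl, fun a b => rfl, fun l hl => ?_⟩
  match l, hl with
  | a :: b :: d :: l, _ => rfl

lemma bn_enc (c0 : C) (x : Ls C) (a b : ℕ) (t : Tm) : bn (enc c0 x) a b t = vl x t a b := rfl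

lemma le'_enc (c0 : C) (x : Ls C) (ε : Bool) (a b : ℕ) :
    le' (bn (enc c0 x)) ε a b ↔ up x.1 ε a b := Iff.rfl

lemma up_not {r : ℕ → ℕ → Bool} {ε : Bool} {x y : ℕ} : up r (!ε) x y ↔ up r ε y x := by
  unfold up
  cases ε with
  | true =>
    constructor
    · rintro (rfl | h)
      · exact Or.inl rfl
      · exact Or.inr (by simpa using h)
    · rintro (rfl | h)
      · exact Or.inl rfl
      · exact Or.inr (by simpa using h)
  | false =>
    constructor
    · rintro (rfl | h)
      · exact Or.inl rfl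
      · exact Or.inr (by simpa using h)
    · rintro (rfl | h)
      · exact Or.inl rfl
      · exact Or.inr (by simpa using h)

lemma up_trans {r : ℕ → ℕ → Bool} (hr : Lin r) {ε : Bool} {x y z : ℕ} (h : up r ε x y)
    (h' : up r ε y z) : up r ε x z := by
  rcases h with rfl | h
  · exact h'
  · rcases h' with rfl | h'
    · exact Or.inr h
    · right
      cases ε with
      | true => exact hr.2.2 _ _ _ (by simpa using h) (by simpa using h')
      | false => exact hr.2.2 _ _ _ (by simpa using h') (by simpa using h)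

lemma vl_comp {x : Ls C} {s t : Tm} {a b : ℕ} : vl x (s.comp t) a b = true ↔
    s.ty.2 = t.ty.1 ∧ ∃ z, vl x s a z = true ∧ vl x t z b = true := by
  simp [vl]

lemma vl_mon {x : Ls C} (hx : Lin x.1) : ∀ (t : Tm) (a a' b b' : ℕ), up x.1 t.ty.1 a' a →
    vl x t a b = true → up x.1 t.ty.2 b b' → vl x t a' b' = true := by
  intro t
  induction t with
  | lt ε =>
    intro a a' b b' h1 h2 h3
    have h1' : up x.1 ε a' a := h1
    have h3' : up x.1 ε b b' := h3
    have h2' : up x.1 ε a b := by
      right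
      cases ε with
      | true => simpa [vl] using h2
      | false => simpa [vl] using h2
    have hab : a ≠ b := by
      rintro rfl
      cases ε with
      | true =>
        simp only [vl] at h2
        rw [hx.1] at h2
        cases h2
      | false =>
        simp only [vl] at h2
        rw [hx.1] at h2
        cases h2
    rcases up_trans hx (up_trans hx h1' h2') h3' with h4 | h4
    · exfalso
      subst h4
      -- `a' ≤ a < b ≤ a'`
      have h5 : up x.1 ε b a := up_trans hx h3' h1'
      rcases h5 with h5 | h5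
      · exact hab h5.symm
      · rcases h2' with h2' | h2'
        · exact hab h2'
        · cases ε with
          | true =>
            have h6 := hx.2.2 a b a (by simpa using h2') (by simpa using h5)
            rw [hx.1] at h6
            cases h6
          | false =>
            have h6 := hx.2.2 a b a (by simpa using h5) (by simpa using h2')
            rw [hx.1] at h6
            cases h6
    · cases ε with
      | true => simpa [vl] using h4
      | false => simpa [vl] using h4
  | rel k ε δ =>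
    intro a a' b b' h1 h2 h3
    simp only [vl, Bool.and_eq_true, decide_eq_true_eq] at h2 ⊢
    exact ⟨h2.2 a a' b b' h1 h2.1 h3, h2.2⟩
  | comp s t ihs iht =>
    intro a a' b b' h1 h2 h3
    rw [vl_comp] at h2 ⊢
    obtain ⟨e, z, h4, h5⟩ := h2
    exact ⟨e, z, ihs a a' z z h1 h4 (Or.inl rfl), iht z z b b' (Or.inl rfl) h5 h3⟩
  | inv s ih =>
    intro a a' b b' h1 h2 h3
    simp only [vl, Bool.not_eq_true'] at h2 ⊢
    by_contra h4
    rw [Bool.not_eq_false] at h4
    have h5 := ih b' b a' a h3 h4 h1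
    rw [h2] at h5
    cases h5
  | neg s ih =>
    intro a a' b b' h1 h2 h3
    simp only [vl, Bool.not_eq_true'] at h2 ⊢
    by_contra h4
    rw [Bool.not_eq_false] at h4
    have h1' : up x.1 (!s.ty.1) a' a := h1
    have h3' : up x.1 (!s.ty.2) b b' := h3
    have h5 := ih a' a b' b (up_not.1 h1') h4 (up_not.1 h3')
    rw [h2] at h5
    cases h5

/-- codes of linear orders are monotone structures -/
theorem mo_enc (c0 : C) {x : Ls C} (hx : Lin x.1) : Mo (bn (enc c0 x)) where
  irr a := hx.1 a
  tri a b h := hx.2.1 a b h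
  tra a b d h h' := hx.2.2 a b d h h'
  rev a b := rfl
  mon t a a' b b' h1 h2 h3 := vl_mon hx t a a' b b' h1 h2 h3
  comp s t h a b := by
    change vl x (s.comp t) a b = true ↔ _
    rw [vl_comp]
    exact ⟨fun h' => h'.2, fun h' => ⟨h, h'⟩⟩
  comp' s t h a b := by
    change vl x (s.comp t) a b = false
    rw [← Bool.not_eq_true, vl_comp]
    exact fun h' => h h'.1
  inv s a b := rfl
  neg s a b := rfl

/-! ### isomorphisms -/

lemma up_iso {x y : Ls C} {g : Equiv.Perm ℕ} (h : IsoE x y g) (ε : Bool) (a b : ℕ) :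
    up y.1 ε (g a) (g b) ↔ up x.1 ε a b := by
  unfold up
  rw [g.injective.eq_iff, h.1, h.1]

lemma mn_iso {x y : Ls C} {g : Equiv.Perm ℕ} (h : IsoE x y g) (k : ℕ) (ε δ : Bool) :
    Mn y.1 (y.2.1 k) ε δ ↔ Mn x.1 (x.2.1 k) ε δ := by
  constructor
  · intro H a a' b b' h1 h2 h3
    rw [← h.2.1]
    exact H (g a) (g a') (g b) (g b') ((up_iso h ε _ _).2 h1) (by rw [h.2.1]; exact h2)
      ((up_iso h δ _ _).2 h3)
  · intro H a a' b b' h1 h2 h3
    obtain ⟨a, rfl⟩ := g.surjective a
    obtain ⟨a', rfl⟩ := g.surjective a'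
    obtain ⟨b, rfl⟩ := g.surjective b
    obtain ⟨b', rfl⟩ := g.surjective b'
    rw [h.2.1] at h2 ⊢
    exact H a a' b b' ((up_iso h ε _ _).1 h1) h2 ((up_iso h δ _ _).1 h3)

lemma vl_iso {x y : Ls C} {g : Equiv.Perm ℕ} (h : IsoE x y g) : ∀ (t : Tm) (a b : ℕ),
    vl y t (g a) (g b) = vl x t a b := by
  intro t
  induction t with
  | lt ε =>
    intro a b
    cases ε
    · exact h.1 b a
    · exact h.1 a b
  | rel k ε δ =>
    intro a b
    simp only [vl]
    rw [h.2.1, decide_eq_decide.2 (mn_iso h k ε δ)]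
  | comp s t ihs iht =>
    intro a b
    rw [Bool.eq_iff_iff, vl_comp, vl_comp]
    constructor
    · rintro ⟨e, z, h1, h2⟩
      obtain ⟨z, rfl⟩ := g.surjective z
      rw [ihs] at h1
      rw [iht] at h2
      exact ⟨e, z, h1, h2⟩
    · rintro ⟨e, z, h1, h2⟩
      exact ⟨e, g z, by rw [ihs]; exact h1, by rw [iht]; exact h2⟩
  | inv s ih =>
    intro a b
    simp only [vl]
    rw [ih]
  | neg s ih =>
    intro a b
    simp only [vl]
    rw [ih]

lemma iso_enc {c0 : C} {x y : Ls C} {g : Equiv.Perm ℕ} (h : IsoE x y g) :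
    Iso (enc c0 x) (enc c0 y) := by
  refine ⟨g, by simp, fun u v => ?_, fun l => ?_⟩
  · change decide (u ≠ v) = decide (g u ≠ g v)
    rw [decide_eq_decide, Ne, Ne, g.injective.eq_iff]
  · match l with
    | [] => rfl
    | [a] =>
      change (x.2.2 a, w0) = (y.2.2 (g a), w0)
      rw [h.2.2]
    | [a, b] =>
      change (c0, fun t => vl x t a b) = (c0, fun t => vl y t (g a) (g b))
      rw [Prod.mk.injEq]
      exact ⟨rfl, funext fun t => (vl_iso h t a b).symm⟩
    | a :: b :: d :: l => rfl

lemma mon_iso {x y : Ls C} {g : Equiv.Perm ℕ} (h : IsoE x y g) (hx : Mon x) : Mon y := by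
  obtain ⟨⟨h1, h2, h3⟩, h4⟩ := hx
  refine ⟨⟨fun a => ?_, fun a b hab => ?_, fun a b d hab hbd => ?_⟩, fun k => ?_⟩
  · obtain ⟨a, rfl⟩ := g.surjective a
    rw [h.1]
    exact h1 a
  · obtain ⟨a, rfl⟩ := g.surjective a
    obtain ⟨b, rfl⟩ := g.surjective b
    rw [h.1, h.1]
    exact h2 a b fun e => hab (by rw [e])
  · obtain ⟨a, rfl⟩ := g.surjective a
    obtain ⟨b, rfl⟩ := g.surjective b
    obtain ⟨d, rfl⟩ := g.surjective d
    rw [h.1] at hab hbd ⊢
    exact h3 a b d hab hbd
  · obtain ⟨ε, δ, h5⟩ := h4 k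
    exact ⟨ε, δ, (mn_iso h k ε δ).2 h5⟩

/-- decoding -/
def decd (M : St (C × W)) : Ls C :=
  (fun a b => (M.2 [a, b]).2 (Tm.lt true),
    fun k a b => ((M.2 [a, b]).2 (Tm.rel k true true) || (M.2 [a, b]).2 (Tm.rel k true false)) ||
      ((M.2 [a, b]).2 (Tm.rel k false true) || (M.2 [a, b]).2 (Tm.rel k false false)),
    fun a => (M.2 [a]).1)

lemma dec_enc (c0 : C) {x : Ls C} (hx : Mon x) : decd (enc c0 x) = x := by
  refine Prod.ext rfl (Prod.ext ?_ rfl)
  funext k a b
  change ((vl x (Tm.rel k true true) a b || vl x (Tm.rel k true false) a b) ||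
    (vl x (Tm.rel k false true) a b || vl x (Tm.rel k false false) a b)) = x.2.1 k a b
  obtain ⟨ε, δ, h⟩ := hx.2 k
  rw [Bool.eq_iff_iff]
  simp only [vl, Bool.or_eq_true, Bool.and_eq_true, decide_eq_true_eq]
  constructor
  · rintro ((h1 | h1) | (h1 | h1)) <;> exact h1.1
  · intro h1
    cases ε <;> cases δ
    · exact Or.inr (Or.inr ⟨h1, h⟩)
    · exact Or.inr (Or.inl ⟨h1, h⟩)
    · exact Or.inl (Or.inr ⟨h1, h⟩)
    · exact Or.inl (Or.inl ⟨h1, h⟩)

lemma iso_enc_inv {c0 : C} {x y : Ls C} (hx : Mon x) (hy : Mon y)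
    (h : Iso (enc c0 x) (enc c0 y)) : ∃ g : Equiv.Perm ℕ, IsoE x y g := by
  obtain ⟨g, -, -, h2⟩ := h
  have key : ∀ a b, (enc c0 y).2 [g a, g b] = (enc c0 x).2 [a, b] := fun a b => (h2 [a, b]).symm
  refine ⟨g, fun a b => ?_, fun k a b => ?_, fun a => ?_⟩
  · have h3 := congrFun (congrArg Prod.snd (key a b)) (Tm.lt true)
    exact h3
  · have h3 : (decd (enc c0 y)).2.1 k (g a) (g b) = (decd (enc c0 x)).2.1 k a b := by
      simp only [decd]
      rw [key a b]
    rw [dec_enc c0 hx, dec_enc c0 hy] at h3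
    exact h3
  · exact (congrArg Prod.fst (h2 [a])).symm

lemma exists_of_iso {c0 : C} {x : Ls C} {N : St (C × W)} (h : Iso (enc c0 x) N) :
    ∃ y : Ls C, N = enc c0 y ∧ ∃ g : Equiv.Perm ℕ, IsoE x y g := by
  obtain ⟨g, -, h1, h2⟩ := h
  let y : Ls C := (fun a b => x.1 (g.symm a) (g.symm b),
    fun k a b => x.2.1 k (g.symm a) (g.symm b), fun a => x.2.2 (g.symm a))
  have hy : IsoE x y g := ⟨fun a b => by simp [y], fun k a b => by simp [y], fun a => by simp [y]⟩
  refine ⟨y, ?_, g, hy⟩
  refine Prod.ext ?_ ?_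
  · funext u v
    have h3 := h1 (g.symm u) (g.symm v)
    rw [g.apply_symm_apply, g.apply_symm_apply] at h3
    rw [← h3]
    change decide (g.symm u ≠ g.symm v) = decide (u ≠ v)
    rw [decide_eq_decide, Ne, Ne, g.symm.injective.eq_iff]
  · funext l
    have h3 := h2 (l.map g.symm)
    rw [List.map_map, Equiv.self_comp_symm, List.map_id] at h3
    rw [← h3]
    match l with
    | [] => rfl
    | [a] => rfl
    | [a, b] =>
      change (c0, fun t => vl x t (g.symm a) (g.symm b)) = (c0, fun t => vl y t a b)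
      rw [Prod.mk.injEq]
      refine ⟨rfl, funext fun t => ?_⟩
      have h4 := vl_iso hy t (g.symm a) (g.symm b)
      rw [g.apply_symm_apply, g.apply_symm_apply] at h4
      exact h4.symm
    | a :: b :: d :: l => rfl

/-! ### measurability -/

section

variable [MeasurableSpace C]

lemma meas_lt (a b : ℕ) : Measurable fun x : Ls C => x.1 a b :=
  (measurable_pi_apply b).comp ((measurable_pi_apply a).comp measurable_fst)

lemma meas_rel (k a b : ℕ) : Measurable fun x : Ls C => x.2.1 k a b :=
  (measurable_pi_apply b).comp ((measurable_pi_apply a).comp ((measurable_pi_apply k).comp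
    (measurable_fst.comp measurable_snd)))

lemma meas_col (a : ℕ) : Measurable fun x : Ls C => x.2.2 a :=
  (measurable_pi_apply a).comp (measurable_snd.comp measurable_snd)

lemma ms_true {f : Ls C → Bool} (hf : Measurable f) (v : Bool) : MeasurableSet {x | f x = v} :=
  hf (measurableSet_singleton v)

lemma ms_up (ε : Bool) (a b : ℕ) : MeasurableSet {x : Ls C | up x.1 ε a b} := by
  cases ε with
  | true =>
    rw [show {x : Ls C | up x.1 true a b} = {_x : Ls C | a = b} ∪ {x : Ls C | x.1 a b = true} by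
      ext x
      simp [up]]
    exact (MeasurableSet.const _).union (ms_true (meas_lt a b) true)
  | false =>
    rw [show {x : Ls C | up x.1 false a b} = {_x : Ls C | a = b} ∪ {x : Ls C | x.1 b a = true} by
      ext x
      simp [up]]
    exact (MeasurableSet.const _).union (ms_true (meas_lt b a) true)

lemma ms_mn (k : ℕ) (ε δ : Bool) : MeasurableSet {x : Ls C | Mn x.1 (x.2.1 k) ε δ} := by
  have e : {x : Ls C | Mn x.1 (x.2.1 k) ε δ} = ⋂ a, ⋂ a', ⋂ b, ⋂ b',
      ({x : Ls C | up x.1 ε a' a}ᶜ ∪ ({x : Ls C | x.2.1 k a b = true}ᶜ ∪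
        ({x : Ls C | up x.1 δ b b'}ᶜ ∪ {x : Ls C | x.2.1 k a' b' = true}))) := by
    ext x
    simp only [Mn, mem_ofPred_eq, mem_iInter, mem_union, mem_compl_iff]
    refine forall_congr' fun a => forall_congr' fun a' => forall_congr' fun b =>
      forall_congr' fun b' => ?_
    tauto
  rw [e]
  refine MeasurableSet.iInter fun a => MeasurableSet.iInter fun a' => MeasurableSet.iInter
    fun b => MeasurableSet.iInter fun b' => ?_
  exact (ms_up ε a' a).compl.union ((ms_true (meas_rel k a b) true).compl.union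
    ((ms_up δ b b').compl.union (ms_true (meas_rel k a' b') true)))

lemma ms_lin : MeasurableSet {x : Ls C | Lin x.1} := by
  rw [show {x : Ls C | Lin x.1} = (⋂ a, {x : Ls C | x.1 a a = false}) ∩
      ((⋂ a, ⋂ b, ({_x : Ls C | a = b} ∪ ({x : Ls C | x.1 a b = true} ∪
          {x : Ls C | x.1 b a = true}))) ∩
        ⋂ a, ⋂ b, ⋂ d, ({x : Ls C | x.1 a b = true}ᶜ ∪ ({x : Ls C | x.1 b d = true}ᶜ ∪
          {x : Ls C | x.1 a d = true}))) by
      ext x
      simp only [Lin, mem_ofPred_eq, mem_inter_iff, mem_iInter, mem_union, mem_compl_iff]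
      refine and_congr Iff.rfl (and_congr ?_ ?_)
      · refine forall_congr' fun a => forall_congr' fun b => ?_
        tauto
      · refine forall_congr' fun a => forall_congr' fun b => forall_congr' fun d => ?_
        tauto]
  refine MeasurableSet.inter ?_ (MeasurableSet.inter ?_ ?_)
  · exact MeasurableSet.iInter fun a => ms_true (meas_lt a a) false
  · exact MeasurableSet.iInter fun a => MeasurableSet.iInter fun b =>
      (MeasurableSet.const _).union ((ms_true (meas_lt a b) true).union
        (ms_true (meas_lt b a) true))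
  · exact MeasurableSet.iInter fun a => MeasurableSet.iInter fun b => MeasurableSet.iInter
      fun d => (ms_true (meas_lt a b) true).compl.union
        ((ms_true (meas_lt b d) true).compl.union (ms_true (meas_lt a d) true))

lemma ms_mon : MeasurableSet {x : Ls C | Mon x} := by
  rw [show {x : Ls C | Mon x} = {x : Ls C | Lin x.1} ∩
      ⋂ k, ⋃ ε, ⋃ δ, {x : Ls C | Mn x.1 (x.2.1 k) ε δ} by
    ext x
    simp only [Mon, mem_ofPred_eq, mem_inter_iff, mem_iInter, mem_iUnion]]
  exact ms_lin.inter (MeasurableSet.iInter fun k => MeasurableSet.iUnion fun ε =>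
    MeasurableSet.iUnion fun δ => ms_mn k ε δ)

lemma meas_vl : ∀ (t : Tm) (a b : ℕ), Measurable fun x : Ls C => vl x t a b := by
  intro t
  induction t with
  | lt ε =>
    intro a b
    cases ε
    · exact meas_lt b a
    · exact meas_lt a b
  | rel k ε δ =>
    intro a b
    refine measurable_to_bool ?_
    rw [show (fun x : Ls C => vl x (Tm.rel k ε δ) a b) ⁻¹' {true} =
        {x : Ls C | x.2.1 k a b = true} ∩ {x : Ls C | Mn x.1 (x.2.1 k) ε δ} by
      ext x
      simp only [mem_preimage, mem_singleton_iff, vl, Bool.and_eq_true, decide_eq_true_eq,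
        mem_inter_iff, mem_ofPred_eq]]
    exact (ms_true (meas_rel k a b) true).inter (ms_mn k ε δ)
  | comp s t ihs iht =>
    intro a b
    refine measurable_to_bool ?_
    rw [show (fun x : Ls C => vl x (s.comp t) a b) ⁻¹' {true} =
        {x : Ls C | s.ty.2 = t.ty.1} ∩ ⋃ z, ({x : Ls C | vl x s a z = true} ∩
          {x : Ls C | vl x t z b = true}) by
      ext x
      simp only [mem_preimage, mem_singleton_iff, vl_comp, mem_inter_iff, mem_ofPred_eq,
        mem_iUnion]]
    exact (MeasurableSet.const _).inter (MeasurableSet.iUnion fun z =>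
      (ms_true (ihs a z) true).inter (ms_true (iht z b) true))
  | inv s ih =>
    intro a b
    refine measurable_to_bool ?_
    rw [show (fun x : Ls C => vl x s.inv a b) ⁻¹' {true} = {x : Ls C | vl x s b a = false} by
      ext x
      simp only [mem_preimage, mem_singleton_iff, vl, Bool.not_eq_true', mem_ofPred_eq]]
    exact ms_true (ih b a) false
  | neg s ih =>
    intro a b
    refine measurable_to_bool ?_
    rw [show (fun x : Ls C => vl x s.neg a b) ⁻¹' {true} = {x : Ls C | vl x s a b = false} by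
      ext x
      simp only [mem_preimage, mem_singleton_iff, vl, Bool.not_eq_true', mem_ofPred_eq]]
    exact ms_true (ih a b) false

lemma measurable_enc (c0 : C) : Measurable (enc c0 : Ls C → St (C × W)) := by
  refine Measurable.prodMk measurable_const (measurable_pi_lambda _ fun l => ?_)
  match l with
  | [] => exact measurable_const
  | [a] => exact (meas_col a).prodMk measurable_const
  | [a, b] => exact measurable_const.prodMk (measurable_pi_lambda _ fun t => meas_vl t a b)
  | a :: b :: d :: l => exact measurable_const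

lemma measurable_dec : Measurable (decd : St (C × W) → Ls C) := by
  have hw : ∀ (a b : ℕ) (t : Tm), Measurable fun M : St (C × W) => (M.2 [a, b]).2 t :=
    fun a b t => (measurable_pi_apply t).comp (measurable_snd.comp
      ((measurable_pi_apply [a, b]).comp measurable_snd))
  refine Measurable.prodMk ?_ (Measurable.prodMk ?_ ?_)
  · exact measurable_pi_lambda _ fun a => measurable_pi_lambda _ fun b => hw a b _
  · refine measurable_pi_lambda _ fun k => measurable_pi_lambda _ fun a =>
      measurable_pi_lambda _ fun b => ?_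
    have h4 : Measurable fun M : St (C × W) => (((M.2 [a, b]).2 (Tm.rel k true true),
        (M.2 [a, b]).2 (Tm.rel k true false)), ((M.2 [a, b]).2 (Tm.rel k false true),
        (M.2 [a, b]).2 (Tm.rel k false false))) :=
      ((hw a b _).prodMk (hw a b _)).prodMk ((hw a b _).prodMk (hw a b _))
    exact (measurable_of_countable fun q : (Bool × Bool) × (Bool × Bool) =>
      (q.1.1 || q.1.2) || (q.2.1 || q.2.2)).comp h4
  · refine measurable_pi_lambda _ fun a => ?_
    exact measurable_fst.comp ((measurable_pi_apply [a]).comp measurable_snd)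

end

/-- countably many types -/
def CntE (A : Set (Ls C)) : Prop :=
  ∃ D : Set (Ls C), D.Countable ∧ ∀ x ∈ A, ∃ y ∈ D, ∃ g, IsoE x y g

/-- perfectly many types -/
def PerfE [MeasurableSpace C] (A : Set (Ls C)) : Prop :=
  ∃ F : (ℕ → Bool) → Ls C, Measurable F ∧ (∀ u, F u ∈ A) ∧
    ∀ u v, u ≠ v → ¬ ∃ g, IsoE (F u) (F v) g

lemma iso_symm' {M N : St (C × W)} (h : Iso M N) : Iso N M := by
  obtain ⟨g, -, h1, h2⟩ := h
  refine ⟨g.symm, by simp, fun u v => ?_, fun l => ?_⟩
  · rw [h1]; simp
  · rw [h2, List.map_map]; simp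

lemma iso_trans' {M N L : St (C × W)} (h : Iso M N) (h' : Iso N L) : Iso M L := by
  obtain ⟨g, -, h1, h2⟩ := h
  obtain ⟨g', -, h1', h2'⟩ := h'
  refine ⟨g.trans g', by simp, fun u v => ?_, fun l => ?_⟩
  · rw [h1, h1']; rfl
  · rw [h2, h2', List.map_map]; rfl

/-- **The final reduction.** -/
theorem final_mo [MeasurableSpace C] [StandardBorelSpace C] (hF : ∀ c0 : C, MOF C c0)
    (X : Set (Ls C)) (hX : MeasurableSet X) (hinv : ∀ x ∈ X, ∀ y g, IsoE x y g → y ∈ X) :
    PerfE X ∨ CntE {x ∈ X | Mon x} := by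
  classical
  rcases X.eq_empty_or_nonempty with rfl | ⟨x0, hx0⟩
  · exact Or.inr ⟨∅, countable_empty, by simp⟩
  let c0 : C := x0.2.2 0
  let X0 : Set (Ls C) := {x ∈ X | Mon x}
  have hX0 : MeasurableSet X0 := hX.inter ms_mon
  have hm : MeasurableSet (enc c0 '' X0) :=
    hX0.image_of_measurable_injOn (measurable_enc c0) fun x hx y hy h => by
      rw [← dec_enc c0 hx.2, ← dec_enc c0 hy.2, h]
  have hI : ∀ M ∈ enc c0 '' X0, ∀ N, Iso M N → N ∈ enc c0 '' X0 := by
    rintro _ ⟨x, hx, rfl⟩ N hN
    obtain ⟨y, rfl, g, hg⟩ := exists_of_iso hN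
    exact ⟨y, ⟨hinv x hx.1 y g hg, mon_iso hg hx.2⟩, rfl⟩
  rcases hF c0 (enc c0 '' X0) hm (by rintro _ ⟨x, -, rfl⟩; exact bv_enc c0 x)
    (by rintro _ ⟨x, hx, rfl⟩; exact mo_enc c0 hx.2.1) hI with h | h
  · left
    obtain ⟨f, hf1, hf2, hf3⟩ := h
    refine ⟨fun u => decd (f u), measurable_dec.comp hf1, fun u => ?_, fun u v huv hg => ?_⟩
    · obtain ⟨x, hx, hxe⟩ := hf2 u
      change decd (f u) ∈ X
      rw [← hxe, dec_enc c0 hx.2]
      exact hx.1
    · refine hf3 u v huv ?_
      obtain ⟨x, hx, hxe⟩ := hf2 u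
      obtain ⟨y, hy, hye⟩ := hf2 v
      obtain ⟨g, hg⟩ := hg
      simp only [← hxe, ← hye, dec_enc c0 hx.2, dec_enc c0 hy.2] at hg
      rw [← hxe, ← hye]
      exact iso_enc hg
  · right
    obtain ⟨T, hT1, hT2⟩ := h
    let r : St (C × W) → St (C × W) := fun N =>
      if h : ∃ y ∈ X0, Iso N (enc c0 y) then enc c0 h.choose else N
    refine ⟨(decd : St (C × W) → Ls C) '' (r '' T), (hT1.image _).image _, ?_⟩
    intro x hx
    obtain ⟨N, hN, hiso⟩ := hT2 (enc c0 x) ⟨x, hx, rfl⟩
    have hex : ∃ y ∈ X0, Iso N (enc c0 y) := ⟨x, hx, iso_symm' hiso⟩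
    refine ⟨hex.choose, ⟨r N, ⟨N, hN, rfl⟩, ?_⟩,
      iso_enc_inv hx.2 hex.choose_spec.1.2 (iso_trans' hiso hex.choose_spec.2)⟩
    change decd (if h : ∃ y ∈ X0, Iso N (enc c0 y) then enc c0 h.choose else N) = _
    rw [dif_pos hex, dec_enc c0 hex.choose_spec.1.2]

end

end Pool.Agent.MO
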