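import Pool.Agent.H76.MO.MST

/-!
# MBV, FIMP: Borel conditions (by helper16)
-/

set_option autoImplicit false

open Set Pool.Agent.TK Pool.Agent.H71.VK

namespace Pool.Agent.MO

open Pool.Agent.H94.VK (meas_rtg)

variable {C : Type} [MeasurableSpace C]

theorem pf_MBV [StandardBorelSpace C] : T_MBV C := by
  intro c0
  have h : {M : St (C × W) | BV c0 M} =
      (⋂ u, ⋂ v, {M : St (C × W) | M.1 u v = decide (u ≠ v)}) ∩
      ({M : St (C × W) | M.2 [] = (c0, w0)} ∩
      ((⋂ x, {M : St (C × W) | (M.2 [x]).2 = w0}) ∩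
      ((⋂ x, ⋂ y, {M : St (C × W) | (M.2 [x, y]).1 = c0}) ∩
      ⋂ l : List ℕ, ⋂ _ : 3 ≤ l.length, {M : St (C × W) | M.2 l = (c0, w0)}))) := by
    ext M
    simp only [BV, mem_ofPred_eq, mem_inter_iff, mem_iInter]
  rw [h]
  refine MeasurableSet.inter (MeasurableSet.iInter fun u => MeasurableSet.iInter fun v => ?_)
    (MeasurableSet.inter ?_ (MeasurableSet.inter (MeasurableSet.iInter fun x => ?_)
    (MeasurableSet.inter (MeasurableSet.iInter fun x => MeasurableSet.iInter fun y => ?_)
    (MeasurableSet.iInter fun l => MeasurableSet.iInter fun _ => ?_))))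
  · exact measurable_edge u v (measurableSet_singleton _)
  · exact measurable_value [] (measurableSet_singleton _)
  · exact (measurable_snd.comp (measurable_value [x])) (measurableSet_singleton _)
  · exact (measurable_fst.comp (measurable_value [x, y])) (measurableSet_singleton _)
  · exact measurable_value l (measurableSet_singleton _)

lemma meas_bfp [StandardBorelSpace C] (π : Pr) (N : St (C × W)) (E : Set ℕ) (r : Rk)
    (p : List (ℕ × ℕ)) : MeasurableSet {M : St (C × W) | bf M N (st (bn M) π) E r p} := by
  induction r generalizing p with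
  | zero => exact measurableSet_PI N p
  | sup f ih =>
    have h1 : {M : St (C × W) | bf M N (st (bn M) π) E (Rk.sup f) p} =
        ⋂ n, ({M : St (C × W) | bf M N (st (bn M) π) E (f n) p} ∩
          ((⋂ a, ({M : St (C × W) | a ∈ st (bn M) π}ᶜ ∪
            ⋃ b, ⋃ _ : b ∈ E, {M : St (C × W) | bf M N (st (bn M) π) E (f n) ((a, b) :: p)})) ∩
          ⋂ b, ⋂ _ : b ∈ E, ⋃ a, ({M : St (C × W) | a ∈ st (bn M) π} ∩
            {M : St (C × W) | bf M N (st (bn M) π) E (f n) ((a, b) :: p)}))) := by
      ext M
      simp only [bf, mem_ofPred_eq, mem_inter_iff, mem_iInter, mem_union, mem_compl_iff,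
        mem_iUnion, exists_prop, imp_iff_not_or]
    rw [h1]
    refine MeasurableSet.iInter fun n => (ih n p).inter (MeasurableSet.inter ?_ ?_)
    · refine MeasurableSet.iInter fun a => ((pf_MST π).1 a).compl.union ?_
      exact MeasurableSet.iUnion fun b => MeasurableSet.iUnion fun _ => ih n _
    · refine MeasurableSet.iInter fun b => MeasurableSet.iInter fun _ =>
        MeasurableSet.iUnion fun a => ((pf_MST π).1 a).inter (ih n _)

theorem pf_FIMP [StandardBorelSpace C] : T_FIMP C := by
  intro a π N b E
  obtain ⟨r, hr⟩ := pf_SCO pf_SC1 pf_SC2 N b E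
  have h1 : {M : St (C × W) | FI M a (st (bn M) π) N b E} =
      {_M : St (C × W) | a.length = b.length} ∩
        {M : St (C × W) | bf M N (st (bn M) π) E r (a.zip b)} := by
    ext M
    constructor
    · intro h
      exact h.fb r
    · intro h
      have h2 : FB r M a (st (bn M) π) N b E := h
      exact (hr M a _ h2.symm).symm
  rw [h1]
  exact (MeasurableSet.const _).inter (meas_bfp π N E r _)

end Pool.Agent.MO
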