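import Pool.Agent.H71.MO.AllE
import Pool.Agent.H71.MO.Code
import Pool.Agent.H76.MO.SCH
import Pool.Agent.H76.MO.CTM
import Pool.Agent.H76.MO.NOD
import Pool.Agent.H76.MO.SPL
import Pool.Agent.H76.MO.CL2
import Pool.Agent.H76.MO.GNG
import Pool.Agent.H76.MO.RLG
import Pool.Agent.H76.MO.RTG
import Pool.Agent.H76.MO.SYG
import Pool.Agent.H76.MO.GLA
import Pool.Agent.H76.MO.MVB
import Pool.Agent.H71.MO.MBF

/-! The theorem on linear orders with monotone relations, assembled. -/

set_option autoImplicit false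

open Set Pool.Agent.TK Pool.Agent.H71.VK

namespace Pool.Agent.MO

theorem all_SCH : T_SCH := pf_SCH pf_NOD pf_CTM

section

variable {C : Type} [MeasurableSpace C] [StandardBorelSpace C]

theorem all_MVB (c0 : C) : T_MVB C c0 := pf_MVB pf_MST pf_MBV pf_FIMP pf_GLA

theorem all_RLG (c0 : C) : T_RLG C c0 := pf_RLG pf_MBV (all_MVB c0)

theorem all_GRP (c0 : C) : T_GRP C c0 :=
  grp_of (pf_GNG (all_RLG c0) pf_RTG) (pf_SYG (pf_EMA pf_GLA))

theorem all_MOF (c0 : C) : MOF C c0 := mof_of a_CTB (all_GRP c0) all_SCH all_END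

end

end Pool.Agent.MO
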