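import Pool.Agent.H71.MO.AsmE
import Pool.Agent.H71.MO.MEM
import Pool.Agent.H71.MO.FBP
import Pool.Agent.H71.MO.IOT
import Pool.Agent.H71.MO.BLK
import Pool.Agent.H71.MO.INV
import Pool.Agent.H71.MO.TYP
import Pool.Agent.H71.MO.DCD
import Pool.Agent.H71.MO.EXN
import Pool.Agent.H71.MO.CTB
import Pool.Agent.H16.MO.PIB
import Pool.Agent.H16.MO.ISB
import Pool.Agent.H16.MO.RPB
import Pool.Agent.H16.MO.PSE
import Pool.Agent.H16.MO.COM
import Pool.Agent.H16.MO.RP0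
import Pool.Agent.H16.MO.MEX
import Pool.Agent.H16.MO.MES
import Pool.Agent.H92.CW.TP1
import Pool.Agent.H52.CW.TP2
import Pool.Agent.H52.CW.TP3
import Pool.Agent.H52.CW.TP4
import Pool.Agent.H52.CW.TP6
import Pool.Agent.H20.CW.TP5

/-! Groups C and E assembled. -/

set_option autoImplicit false

open Set Pool.Agent.TK Pool.Agent.H71.VK

namespace Pool.Agent.MO

theorem all_TOP : Pool.Agent.CW.TOP :=
  Pool.Agent.CW.top_of Pool.Agent.CW.pf_TP1 Pool.Agent.CW.pf_TP3 Pool.Agent.CW.pf_TP4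
    (Pool.Agent.CW.pf_TP6 Pool.Agent.CW.pf_TP2 Pool.Agent.CW.pf_TP5)

section
variable {C : Type}

theorem a_FBP : T_FBP C := pf_FBP pf_MEM
theorem a_COM : T_COM C := pf_COM pf_PIB pf_RPB pf_PSE
theorem a_BLK : T_BLK C := pf_BLK pf_RPB pf_PIB
theorem a_INV : T_INV C := pf_INV pf_MEM a_COM pf_PSE pf_RP0
theorem a_TYP : T_TYP C := pf_TYP pf_MEM a_COM pf_PSE
theorem a_DCD : T_DCD C := pf_DCD pf_MEM a_COM pf_PSE pf_RP0
theorem a_CTB : T_CTB C := pf_CTB a_FBP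

variable [MeasurableSpace C]

theorem a_MEX : T_MEX C := pf_MEX a_COM pf_PSE pf_RP0

theorem all_END : E_END C :=
  pf_E_END a_INV a_TYP a_DCD a_BLK pf_RP0 pf_EXN pf_IOT a_MEX pf_MES all_TOP

end

end Pool.Agent.MO
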