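import Pool.Agent.H71.MO.HMD

/-! END: a Cantor scheme of big blocks contradicts the hypotheses on the class. -/

set_option autoImplicit false

open Set Topology Pool.Agent.TK Pool.Agent.H71.VK

namespace Pool.Agent.MO

theorem pf_END {C : Type} [MeasurableSpace C] (hDF : E_DF C) (hDTX : E_DTX C) (hOMI : E_OMI C)
    (hTOP : Pool.Agent.CW.TOP) (hMEX : T_MEX C) (hMES : T_MES C) : E_END C := by
  intro c0 b X hX M hM Sm D B hS hsm
  obtain ⟨R, hD⟩ := hDTX c0 b X hX M hM Sm D B hS hsm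
  obtain ⟨T, -, h2, h3, h4⟩ := hTOP
  have hmeas := hMES (List Bool) c0 b M (fun s => st (bn M) (B s)) (fun s => zl (B s)) R hD.ra T
    h3
  have hmem := fun y => hMEX (List Bool) c0 b X hX M hM (fun s => st (bn M) (B s))
    (fun s => zl (B s)) R hD.ra (T y)
  obtain ⟨x, x', hne, g, -, g1, g2⟩ := hX.nf _ [] hmeas hmem
  obtain ⟨e1⟩ := pf_HMD _ _ _ _ _ (hDF c0 b M Sm D B R hD (T x) (h2 x))
  obtain ⟨e2⟩ := pf_HMD _ _ _ _ _ (hDF c0 b M Sm D B R hD (T x') (h2 x'))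
  obtain ⟨e3⟩ := hOMI _ _ g ⟨g1, g2⟩
    (TT M (fun s => st (bn M) (B s)) (fun s => zl (B s)) R)
  exact hne (h4 x x' ⟨(e1.trans e3).trans e2.symm⟩)

end Pool.Agent.MO
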