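import Pool.Agent.H76.MO.StmtB
import Pool.Agent.H76.MO.StmtC
import Pool.Agent.H76.MO.StmtD
import Pool.Agent.H76.MO.StmtE
import Pool.Agent.H16.TK.BF
import Pool.Agent.H75.TK.THN
import Pool.Agent.H75.TK.TYC
import Pool.Agent.H71.ST.Final3

/-! Assembly of the theorem on monotone structures for coded structures from the main modules. -/

set_option autoImplicit false

open Set Pool.Agent.TK Pool.Agent.H71.VK

namespace Pool.Agent.MO

/-- MOF: the theorem for coded structures. -/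
def MOF (C : Type) [MeasurableSpace C] [StandardBorelSpace C] (c0 : C) : Prop :=
  ∀ X : Set (St (C × W)), MeasurableSet X → (∀ M ∈ X, BV c0 M) → (∀ M ∈ X, Mo (bn M)) →
    (∀ M ∈ X, ∀ N, Iso M N → N ∈ X) →
    Perf X ∨ ∃ T : Set (St (C × W)), T.Countable ∧ ∀ M ∈ X, ∃ N ∈ T, Iso M N

variable {C : Type} [MeasurableSpace C] [StandardBorelSpace C] {c0 : C}

/-- the class satisfies the hypotheses for some rank -/
theorem exists_hy {X : Set (St (C × W))} (hX : MeasurableSet X)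
    (hV : ∀ M ∈ X, BV c0 M) (hI : ∀ M ∈ X, ∀ N, Iso M N → N ∈ X) (hP : ¬ Perf X) :
    ∃ b : Rk, Hy c0 b X := by
  have hNFM : NFM (C × W) := pf_NFM
  have hTYC : TYC (C × W) := pf_TYC pf_THN hNFM
  obtain ⟨b0, hb0⟩ := (pf_LOP : LOP (C × W)) X hX hI
  obtain ⟨b, hb, hbase⟩ : ∃ b : Rk, RLe (C × W) b0 b ∧
      RLe (C × W) (Rk.lim (Rk.lim om2)) b :=
    ⟨Sh (Rk.lim (Rk.lim om2)) b0, RLe.sh_right _ _, RLe.sh_left _ _⟩
  exact ⟨b, { val := hV
              cl := fun M hM M' h => hb0 M hM M' (hb _ _ _ _ _ h)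
              tc := hTYC X hX hI hP
              nf := hNFM X hP
              base := hbase }⟩

/-- **The theorem for coded structures.** -/
theorem mof_of (hCTB : T_CTB C) (hGRP : T_GRP C c0) (hSCH : T_SCH)
    (hEND : E_END C) : MOF C c0 := by
  intro X hX hV hW hI
  by_cases hP : Perf X
  · exact Or.inl hP
  right
  by_contra hT
  obtain ⟨b, hy⟩ := exists_hy hX hV hI hP
  obtain ⟨O, hO, hO2⟩ := hCTB c0 X hV hy.tc b
  obtain ⟨M, hM, ⟨G⟩⟩ := hGRP O hO X hX hV hP hT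
  obtain ⟨D, B, hS⟩ := hSCH (bn M) (SmO O M) G (hW M hM)
  exact hEND c0 b X hy M hM (SmO O M) D B hS fun π hπ hs => hO2 M hM π hπ hs

end Pool.Agent.MO
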