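import Pool.Agent.H71.MO.WIN

/-! WEX: all points at infinity come from branches. -/

set_option autoImplicit false

open Set Pool.Agent.TK Pool.Agent.H71.VK

namespace Pool.Agent.MO

section
variable {C : Type} {N : St (C × W)} {D B : List Bool → Pr} {T : Set (List Bool)}
  {Θ : ℕ → Set (Tr C)}

/-- a block lies in the piece of a node or misses it -/
lemma DF.blk (h : DF N D B T Θ) (s t : List Bool) :
    (∃ u, t = u ++ s) ∨ Disjoint (st (bn N) (B t)) (st (bn N) (D s)) := by
  rcases tail_cases s t with ⟨u, hu⟩ | ⟨u, i, hu⟩ | ⟨r, u, v, i, hu, hv⟩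
  · exact Or.inl ⟨u, hu⟩
  · right
    subst hu
    exact (h.djB i t).mono_right (h.dSub u (i :: t))
  · right
    subst hu hv
    have h1 : Disjoint (st (bn N) (D ((!i) :: r))) (st (bn N) (D (i :: r))) := by
      cases i with
      | true => exact (h.dj r).symm
      | false => exact h.dj r
    exact h1.mono ((h.bSub _).trans (h.dSub v _)) (h.dSub u _)

lemma DF.tails (h : DF N D B T Θ) : ∀ u s, u ++ s ∈ T → s ∈ T
  | [], _, hs => hs
  | i :: u, s, hs => h.tails u s (h.tail i (u ++ s) hs)

variable {w : Pr → Bool}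

/-- following the steps of an extension -/
lemma follow (hw : w ∈ Om Θ N) {π : Pr} (hπ : w π = true) : ∀ σ : Pr, Vd (bn N) (σ ++ π) →
    w (σ ++ π) = true ∨
      ∃ Q, w Q = true ∧ Disjoint (st (bn N) Q) (st (bn N) (σ ++ π))
  | [], _ => Or.inl hπ
  | s :: σ, hv => by
    have hv1 : Vd (bn N) (s :: (σ ++ π)) := hv
    obtain ⟨S, F, x, β⟩ := s
    rcases follow hw hπ σ (vd_cons.1 hv1).1 with h1 | ⟨Q, h1, h2⟩
    · by_cases h3 : w ((S, F, x, β) :: (σ ++ π)) = true
      · exact Or.inl h3
      · right
        have h4 := hw.2.2.2.1 (σ ++ π) S F x h1 hv1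
        cases β with
        | true =>
          refine ⟨(S, F, x, false) :: (σ ++ π), ?_, (st_disj (σ ++ π) S F x).symm⟩
          by_contra h5
          rw [Bool.not_eq_true] at h5
          exact h3 (h4.2 h5)
        | false =>
          refine ⟨(S, F, x, true) :: (σ ++ π), h4.2 ?_, st_disj (σ ++ π) S F x⟩
          exact Bool.not_eq_true _ ▸ h3
    · exact Or.inr ⟨Q, h1, h2.mono_right fun y hy => (st_sub hv1 y hy).1⟩

lemma DF.root (h : DF N D B T Θ) (hw : w ∈ Om Θ N) : w (D []) = true := by
  have h1 := follow hw hw.1 (D []) (by rw [List.append_nil]; exact h.vD [])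
  rw [List.append_nil] at h1
  rcases h1 with h1 | ⟨Q, h1, h2⟩
  · exact h1
  · exfalso
    obtain ⟨ρ, h3, h4, h5, h6⟩ := hw.2.2.2.2 [Q] (by simpa using h1) 0
    apply h6
    refine h.old0 ρ h3 fun t _ => ?_
    have h7 : st (bn N) (B t) ⊆ st (bn N) (D []) := by
      have h8 := h.dSub t []
      rw [List.append_nil] at h8
      exact (h.bSub t).trans h8
    exact (h2.symm).mono h7 (h5 Q (by simp))

lemma DF.node (h : DF N D B T Θ) (hw : w ∈ Om Θ N) {s : List Bool} (hs : w (D s) = true) :
    ∃ i, w (D (i :: s)) = true := by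
  by_contra hcon
  push Not at hcon
  have key : ∀ i, ∃ Q, w Q = true ∧ Disjoint (st (bn N) Q) (st (bn N) (D (i :: s))) := by
    intro i
    obtain ⟨σ, hσ⟩ := h.suf i s
    rcases follow hw hs σ (hσ ▸ h.vD (i :: s)) with h1 | h1
    · rw [← hσ] at h1
      exact absurd h1 (hcon i)
    · rw [← hσ] at h1
      exact h1
  obtain ⟨Q, h1, h2⟩ := key true
  obtain ⟨Q', h3, h4⟩ := key false
  obtain ⟨ρ, h5, -, h7, h8⟩ := hw.2.2.2.2 [D s, Q, Q'] (by
    intro π hπ
    simp only [List.mem_cons, List.not_mem_nil, or_false] at hπ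
    rcases hπ with rfl | rfl | rfl
    · exact hs
    · exact h1
    · exact h3) (Encodable.encode s + 1)
  apply h8
  refine h.old s ρ h5 fun t _ hts => ?_
  rcases h.blk s t with ⟨u, hu⟩ | h9
  · rcases List.eq_nil_or_concat u with h10 | ⟨u', i, h10⟩
    · subst h10
      exact absurd hu hts
    · rw [List.concat_eq_append] at h10
      subst h10
      have h11 : st (bn N) (B t) ⊆ st (bn N) (D (i :: s)) := by
        have h12 : t = u' ++ (i :: s) := by rw [hu]; simp
        rw [h12]
        exact (h.bSub _).trans (h.dSub u' _)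
      cases i with
      | true => exact (h2.symm).mono h11 (h7 Q (by simp))
      | false => exact (h4.symm).mono h11 (h7 Q' (by simp))
  · exact h9.mono_right (h7 (D s) (by simp))

lemma DF.inT (h : DF N D B T Θ) (hw : w ∈ Om Θ N) {s : List Bool} (hs : w (D s) = true) :
    s ∈ T := by
  by_contra hsT
  obtain ⟨ρ, h5, -, h7, h8⟩ := hw.2.2.2.2 [D s] (by simpa using hs) 0
  apply h8
  refine h.old0 ρ h5 fun t ht => ?_
  rcases h.blk s t with ⟨u, hu⟩ | h9
  · subst hu
    exact absurd (h.tails u s ht) hsT
  · exact h9.mono_right (h7 (D s) (by simp))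

end

theorem pf_WEX {C : Type} : E_WEX C := by
  classical
  intro N D B T Θ h w hw
  have hnode : ∀ s, ∃ i, w (D s) = true → w (D (i :: s)) = true := by
    intro s
    by_cases hs : w (D s) = true
    · obtain ⟨i, hi⟩ := h.node hw hs
      exact ⟨i, fun _ => hi⟩
    · exact ⟨true, fun hs' => absurd hs' hs⟩
  choose g hg using hnode
  let q : ℕ → List Bool := fun m => Nat.rec [] (fun _ s => g s :: s) m
  have hq : ∀ m, w (D (q m)) = true := by
    intro m
    induction m with
    | zero => exact h.root hw
    | succ m ih => exact hg (q m) ih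
  have hpre : ∀ m, pre (fun m => g (q m)) m = q m := by
    intro m
    induction m with
    | zero => rfl
    | succ m ih =>
      change g (q m) :: pre (fun m => g (q m)) m = g (q m) :: q m
      rw [ih]
  set p : ℕ → Bool := fun m => g (q m) with hp
  have hw' : ∀ m, w (D (pre p m)) = true := fun m => by
    rw [hpre m]
    exact hq m
  have hpT : p ∈ Br T := fun m => h.inT hw (hw' m)
  refine ⟨p, hpT, ?_⟩
  have h1 : ∀ π, w π = true → wp N D p π = true := by
    intro π hπ
    have hv := hw.2.1 π hπ
    rw [wp_iff]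
    refine ⟨hv, ?_⟩
    obtain ⟨m, hm⟩ := h.dec π hv
    rcases hm (pre p m) (by rw [pre_length]) with h2 | h2
    · exact ⟨m, h2⟩
    · exfalso
      obtain ⟨ρ, -, ⟨y, hy⟩, h5, -⟩ := hw.2.2.2.2 [π, D (pre p m)] (by
        intro π' hπ'
        simp only [List.mem_cons, List.not_mem_nil, or_false] at hπ'
        rcases hπ' with rfl | rfl
        · exact hπ
        · exact hw' m) 0
      exact Set.disjoint_left.1 h2 (h5 (D (pre p m)) (by simp) hy) (h5 π (by simp) hy)
  have hwp := pf_WIN N D B T Θ h p hpT
  have h2 : ∀ π, wp N D p π = true → w π = true := by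
    intro π
    induction π with
    | nil => exact fun _ => hw.1
    | cons s π ih =>
      intro hs
      have h3 := ih (hwp.2.2.1 s π hs)
      obtain ⟨S, F, x, β⟩ := s
      have hv : Vd (bn N) ((S, F, x, true) :: π) := (wp_iff.1 hs).1
      have h4 := hw.2.2.2.1 π S F x h3 hv
      have h5 := h.step (hwp.2.2.1 _ π hs) hv
      by_contra h6
      rw [Bool.not_eq_true] at h6
      cases β with
      | true =>
        have h7 : w ((S, F, x, false) :: π) = true := by
          by_contra h8
          rw [Bool.not_eq_true] at h8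
          rw [h4.2 h8] at h6
          exact absurd h6 (by simp)
        have h8 := h5.1 hs
        rw [h1 _ h7] at h8
        exact absurd h8 (by simp)
      | false =>
        have h7 := h1 _ (h4.2 h6)
        have h8 := h5.1 h7
        rw [hs] at h8
        exact absurd h8 (by simp)
  funext π
  rw [Bool.eq_iff_iff]
  exact ⟨h2 π, h1 π⟩

end Pool.Agent.MO
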